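import Pool.Agent.Mg.F0854a0.G6ceadf

/-! A lower bound, of order (g + n) log (g + n), for the Krull dimension of the space of admissible
fundamental groups of type (g, n). -/

namespace Pool.Agent.Results.MP_0854a0_ag.DimLower

theorem result (p : ℕ) (hp : p.Prime) (g n : ℕ) (h : 7 ≤ g + n) :
    ((max (g + n - 2) ((g + n) * (Nat.log 2 (g + n - 1) - 2) / 2) : ℕ) : WithBot ℕ∞) ≤
      topologicalKrullDim (Pool.Agent.AdmG.PiBar p g n) := by
  obtain ⟨h1, h2, -⟩ := Pool.Agent.AdmG.main p hp g n h
  rcases le_total (g + n - 2) ((g + n) * (Nat.log 2 (g + n - 1) - 2) / 2) with h3 | h3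
  · rw [max_eq_right h3]; exact h2
  · rw [max_eq_left h3]; exact h1

end Pool.Agent.Results.MP_0854a0_ag.DimLower
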