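import Pool.Agent.MP_0854a0_ag.Dim.Ee
import Pool.Agent.MP_0854a0_ag.Dim.Pot
import Pool.Agent.MP_0854a0_ag.Dim.Td
import Pool.Agent.MP_0854a0_ag.Dim.Td2
import Pool.Agent.MP_0854a0_ag.Dim.Md
import Pool.Agent.MP_0854a0_ag.Dim.Compat
import Pool.Agent.MP_0854a0_ag.Dim.Count
import Pool.Agent.MP_0854a0_ag.Dim.Rel
import Pool.Agent.MP_0854a0_ag.Dim.Iso
import Pool.Agent.MP_0854a0_ag.Dim.Back
import Pool.Agent.MP_0854a0_ag.Dim.Phi
import Pool.Agent.MP_0854a0_ag.Dim.Lex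
import Pool.Agent.MP_0854a0_ag.Dim.Up
import Pool.Agent.MP_0854a0_ag.Dim.Emb
import Pool.Agent.MP_0854a0_ag.Dim.Smooth
import Pool.Agent.MP_0854a0_ag.Dim.Merge
import Pool.Agent.MP_0854a0_ag.Dim.Chain
import Pool.Agent.MP_0854a0_ag.Dim.Path
import Pool.Agent.MP_0854a0_ag.Dim.CQ
import Pool.Agent.MP_0854a0_ag.Dim.Amal
import Pool.Agent.MP_0854a0_ag.Dim.Real
import Pool.Agent.MP_0854a0_ag.Dim.Fin

/-! The greatest length of a maximal chain in the space of admissible fundamental groups of type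
(0, n) in characteristic two is the sum of the binary digit sums of 0, ..., n - 3. -/

namespace Pool.Agent.Results.MP_0854a0_ag.LongestChain

open Pool.Agent Pool.Agent.Adm.Dim

theorem result (n : ℕ) (hn : 3 ≤ n) :
    IsGreatest {m : ℕ | ∃ V : Fin (m + 1) → Set (Pool.Agent.AdmG.PiBar 2 0 n),
      Pool.Agent.Adm.IsMaxChain V} (∑ i ∈ Finset.range (n - 2), (Nat.digits 2 i).sum) := by
  have hM := sMd sTd
  have hC := sCount sCompat
  have hR := sRel sTd hM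
  obtain ⟨hL, hU⟩ := sFin (sPhi sEe (sPot sEe) sTd hM hC hR (sBack (sIso sCompat)))
    (sLex sTd hC hR) (sChain sEe (sUp sTd hM) (sMerge hM sTd2 sEmb sSmooth))
    (sReal hM sPath sCQ sAmal)
  obtain ⟨h⟩ := AdmG.nonempty_homeomorph 2 n
  have up : ∀ m ∈ {m : ℕ | ∃ V : Fin (m + 1) → Set (AdmG.PiBar 2 0 n), Adm.IsMaxChain V},
      m ≤ ee (n - 2) := by
    rintro m ⟨V, hV⟩
    obtain ⟨h1, -, h3, -⟩ := AdmG.isMaxChain_preimage h.symm hV
    exact hU n (LTSeries.mk m (fun i => ⟨_, (h1 (Fin.rev i)).1, (h1 (Fin.rev i)).2⟩)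
      fun i j hij => SetLike.coe_ssubset_coe.1 (h3 (Fin.rev_lt_rev.2 hij)))
  have lo := hL n hn
  rw [← h.isHomeomorph.topologicalKrullDim_eq] at lo
  obtain ⟨m, hm, hV⟩ := AdmG.exists_long n hn _ lo
  obtain rfl : m = ee (n - 2) := le_antisymm (up m hV) hm
  exact ⟨hV, up⟩

end Pool.Agent.Results.MP_0854a0_ag.LongestChain
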