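import Pool.Agent.Mg.F0854a0.G7996e0

/-! Maximal chains of different lengths in the space of admissible fundamental groups. -/

namespace Pool.Agent.Results.MP_0854a0_ag.NotCatenary

theorem result (n : ℕ) (hn : 7 ≤ n) :
    ∃ (m₁ m₂ : ℕ) (V₁ : Fin (m₁ + 1) → Set (Pool.Agent.AdmG.PiBar 2 0 n))
      (V₂ : Fin (m₂ + 1) → Set (Pool.Agent.AdmG.PiBar 2 0 n)),
      Pool.Agent.Adm.IsMaxChain V₁ ∧ Pool.Agent.Adm.IsMaxChain V₂ ∧ m₁ + 3 = n ∧ m₁ < m₂ := by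
  obtain ⟨⟨V, hV⟩, m, hm, -, W, hW⟩ := Pool.Agent.AdmG.exists_two n hn
  exact ⟨_, _, V, W, hV, hW, by omega, hm⟩

end Pool.Agent.Results.MP_0854a0_ag.NotCatenary
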